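import Pool.Agent.Helper90.QF.St

/-!
# Project QF (MP_04a253_al): module LIN (linear algebra: principal submatrices)
-/

set_option autoImplicit false

namespace Pool.Agent.Helper26.QF

open Pool.Agent.Helper90.QF MvPolynomial

theorem hLIN : StLIN := by
  classical
  intro n A F
  set Mx : Matrix F F ℂ := Matrix.of fun i j => A i j with hMx
  by_cases hdet : Mx.det = 0
  · left
    obtain ⟨v, hv, hMv⟩ := Matrix.exists_mulVec_eq_zero_iff.mpr hdet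
    refine ⟨fun i => if h : i ∈ F then v ⟨i, h⟩ else 0, ?_, ?_, ?_⟩
    · have h1 : ∃ i, v i ≠ 0 := by
        by_contra hcon
        push Not at hcon
        exact hv (funext hcon)
      obtain ⟨i, hi⟩ := h1
      refine ⟨i.1, ?_⟩
      show (if h : i.1 ∈ F then v ⟨i.1, h⟩ else 0) ≠ 0
      rw [dif_pos i.2]
      exact hi
    · intro i hi
      show (if h : i ∈ F then v ⟨i, h⟩ else 0) = 0
      rw [dif_neg hi]
    · intro i hi
      have h1 : ∑ j ∈ F, A i j * (if h : j ∈ F then v ⟨j, h⟩ else 0)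
          = ∑ j : F, A i j * v j := by
        rw [← Finset.sum_coe_sort F (fun j => A i j * (if h : j ∈ F then v ⟨j, h⟩ else 0))]
        apply Finset.sum_congr rfl
        intro j _
        rw [dif_pos j.2]
      show ∑ j ∈ F, A i j * (if h : j ∈ F then v ⟨j, h⟩ else 0) = 0
      rw [h1]
      have h2 := congrFun hMv ⟨i, hi⟩
      simpa [Matrix.mulVec, dotProduct, hMx] using h2
  · right
    have hu : IsUnit Mx.det := isUnit_iff_ne_zero.mpr hdet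
    have hl : Mx⁻¹ * Mx = 1 := Matrix.nonsing_inv_mul Mx hu
    have hr : Mx * Mx⁻¹ = 1 := Matrix.mul_nonsing_inv Mx hu
    refine ⟨fun i j => if h : i ∈ F ∧ j ∈ F then Mx⁻¹ ⟨i, h.1⟩ ⟨j, h.2⟩ else 0, ?_, ?_⟩
    · intro i hi j hj
      have h1 : ∑ l ∈ F, (if h : i ∈ F ∧ l ∈ F then Mx⁻¹ ⟨i, h.1⟩ ⟨l, h.2⟩ else 0) * A l j
          = ∑ l : F, Mx⁻¹ ⟨i, hi⟩ l * A l j := by
        rw [← Finset.sum_coe_sort F
          (fun l => (if h : i ∈ F ∧ l ∈ F then Mx⁻¹ ⟨i, h.1⟩ ⟨l, h.2⟩ else 0) * A l j)]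
        apply Finset.sum_congr rfl
        intro l _
        rw [dif_pos ⟨hi, l.2⟩]
      show ∑ l ∈ F, (if h : i ∈ F ∧ l ∈ F then Mx⁻¹ ⟨i, h.1⟩ ⟨l, h.2⟩ else 0) * A l j = _
      rw [h1]
      have h2 := congrFun (congrFun hl ⟨i, hi⟩) ⟨j, hj⟩
      rw [Matrix.mul_apply, Matrix.one_apply] at h2
      rw [show (∑ l : F, Mx⁻¹ ⟨i, hi⟩ l * A l j) = ∑ l : F, Mx⁻¹ ⟨i, hi⟩ l * Mx l ⟨j, hj⟩ from rfl, h2]
      simp [Subtype.ext_iff]
    · intro i hi j hj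
      have h1 : ∑ l ∈ F, A i l * (if h : l ∈ F ∧ j ∈ F then Mx⁻¹ ⟨l, h.1⟩ ⟨j, h.2⟩ else 0)
          = ∑ l : F, A i l * Mx⁻¹ l ⟨j, hj⟩ := by
        rw [← Finset.sum_coe_sort F
          (fun l => A i l * (if h : l ∈ F ∧ j ∈ F then Mx⁻¹ ⟨l, h.1⟩ ⟨j, h.2⟩ else 0))]
        apply Finset.sum_congr rfl
        intro l _
        rw [dif_pos ⟨l.2, hj⟩]
      show ∑ l ∈ F, A i l * (if h : l ∈ F ∧ j ∈ F then Mx⁻¹ ⟨l, h.1⟩ ⟨j, h.2⟩ else 0) = _
      rw [h1]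
      have h2 := congrFun (congrFun hr ⟨i, hi⟩) ⟨j, hj⟩
      rw [Matrix.mul_apply, Matrix.one_apply] at h2
      rw [show (∑ l : F, A i l * Mx⁻¹ l ⟨j, hj⟩) = ∑ l : F, Mx ⟨i, hi⟩ l * Mx⁻¹ l ⟨j, hj⟩ from rfl, h2]
      simp [Subtype.ext_iff]

end Pool.Agent.Helper26.QF
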